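import Pool.Agent.helper36.HK.Spec

/-!
# HK.RCH: real ring class characters are Dirichlet characters of the norm
-/

set_option autoImplicit false

open Finset Pool.Agent.FI

noncomputable section

namespace Pool.Agent.HK

private theorem RCH_N8_mul (z w : ℤ × ℤ) : N8 (mul8 z w) = N8 z * N8 w := by
  unfold N8 mul8
  ring

private theorem RCH_N8_cj (z : ℤ × ℤ) : N8 (cj z) = N8 z := by
  unfold N8 cj
  ring

private theorem RCH_nn_cop (z : ℤ × ℤ) (d : ℕ) :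
    Nat.Coprime (nn z) d ↔ IsCoprime (N8 z) (d : ℤ) := by
  unfold nn
  rw [Int.isCoprime_iff_nat_coprime, Int.natAbs_natCast]

/-- The value depends only on the norm modulo `d`. -/
private theorem RCH_eq (hRSQ : RSQ_stmt) (d : ℕ) (hd : Odd d) (hsq : Squarefree d)
    (ψ : ℤ × ℤ → ℂ) (hψ : IsRC d ψ) (h2 : ∀ z, Nat.Coprime (nn z) d → ψ z ^ 2 = 1)
    (z w : ℤ × ℤ) (hz : Nat.Coprime (nn z) d) (hzw : (d : ℤ) ∣ N8 z - N8 w) : ψ z = ψ w := by
  obtain ⟨hm, hper, h0, h1, ht⟩ := hψ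
  have hcw : IsCoprime (N8 w) (d : ℤ) := by
    have hcz := (RCH_nn_cop z d).mp hz
    obtain ⟨c, hc⟩ := hzw
    have e : N8 w = N8 z + (d : ℤ) * (-c) := by linarith
    rw [e]
    exact (IsCoprime.add_mul_left_left_iff).mpr hcz
  have e1 : ψ (mul8 z (cj w)) = 1 := by
    refine hRSQ d hd hsq ψ ⟨hm, hper, h0, h1, ht⟩ h2 _ (N8 w) hcw ?_
    rw [RCH_N8_mul, RCH_N8_cj]
    have e : N8 z * N8 w - N8 w ^ 2 = (N8 z - N8 w) * N8 w := by ring
    rw [e]
    exact Dvd.dvd.mul_right hzw _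
  have e2 : ψ (mul8 w (cj w)) = 1 := by
    refine hRSQ d hd hsq ψ ⟨hm, hper, h0, h1, ht⟩ h2 _ (N8 w) hcw ?_
    rw [RCH_N8_mul, RCH_N8_cj]
    have e : N8 w * N8 w - N8 w ^ 2 = 0 := by ring
    rw [e]
    exact dvd_zero _
  rw [hm] at e1 e2
  have hne : ψ (cj w) ≠ 0 := by
    intro e
    rw [e, mul_zero] at e2
    exact zero_ne_one e2
  exact mul_right_cancel₀ hne (e1.trans e2.symm)

/-- Every residue class coprime to `d` is a norm. -/
private theorem RCH_ex (hTHU : THU_stmt) (d : ℕ) (hd : Odd d) (a : ℕ) (ha : Nat.Coprime a d) :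
    ∃ z : ℤ × ℤ, (d : ℤ) ∣ N8 z - a := by
  have hd0 : d ≠ 0 := by
    rintro rfl
    exact absurd hd (by decide)
  have hd8 : Nat.Coprime d 8 := by
    have h := Nat.Coprime.pow_right 3 (Nat.coprime_two_right.mpr hd)
    norm_num at h
    exact h
  obtain ⟨m, hm1, hm2⟩ := Nat.chineseRemainder hd8 a 1
  have hmd : Nat.Coprime m d := by
    have h1 := hm1.gcd_eq
    unfold Nat.Coprime
    rw [h1]
    exact ha
  have hm8 : Nat.Coprime m 8 := by
    have h1 := hm2.gcd_eq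
    unfold Nat.Coprime
    rw [h1]
    norm_num
  have hmq : Nat.Coprime m (d * 8) := Nat.Coprime.mul_right hmd hm8
  obtain ⟨p, hp2, hp, hpm⟩ := Nat.forall_exists_prime_gt_and_modEq 2
    (q := d * 8) (a := m) (by positivity) hmq
  have hpd : p ≡ a [MOD d] := (Nat.ModEq.of_mul_right 8 hpm).trans hm1
  have hp8 : p ≡ 1 [MOD 8] := (Nat.ModEq.of_mul_left d hpm).trans hm2
  have hp8' : p % 8 = 1 := by
    have := hp8
    unfold Nat.ModEq at this
    omega
  haveI : Fact p.Prime := ⟨hp⟩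
  obtain ⟨s, hs⟩ := (ZMod.exists_sq_eq_two_iff (p := p) (by omega)).mpr (Or.inl hp8')
  have hν : (p : ℤ) ∣ (2 * (s.val : ℤ)) ^ 2 - 8 := by
    rw [← ZMod.intCast_zmod_eq_zero_iff_dvd]
    push_cast
    rw [ZMod.natCast_zmod_val]
    have e : (2 * s) ^ 2 - 8 = 4 * (s * s) - 8 := by ring
    rw [e, ← hs]
    ring
  have hodd : Odd p := Nat.odd_iff.mpr (by omega)
  obtain ⟨z, hz, _⟩ := hTHU p (2 * (s.val : ℤ)) hodd hν
  refine ⟨z, ?_⟩
  have hzN : N8 z = p := by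
    have h1 : N8 z = p ∨ N8 z = -(p : ℤ) := by
      unfold nn at hz
      have := Int.natAbs_eq (N8 z)
      rw [hz] at this
      exact this
    have hz1 : z.1 % 2 = 1 := by
      by_contra hcon
      have h2 : z.1 % 2 = 0 := by omega
      obtain ⟨c, hc⟩ : ∃ c, z.1 = 2 * c := ⟨z.1 / 2, by omega⟩
      have h3 : N8 z = 2 * (2 * c ^ 2 - 4 * z.2 ^ 2) := by
        unfold N8
        rw [hc]
        ring
      rcases h1 with h | h
      · rw [h3] at h
        omega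
      · rw [h3] at h
        omega
    have h4 : z.1 ^ 2 % 8 = 1 := by
      obtain ⟨c, hc⟩ : ∃ c, z.1 = 2 * c + 1 := ⟨z.1 / 2, by omega⟩
      have h5 : z.1 ^ 2 = 4 * (c * (c + 1)) + 1 := by rw [hc]; ring
      have h6 : Even (c * (c + 1)) := Int.even_mul_succ_self c
      obtain ⟨e, he⟩ := h6
      rw [h5, he]
      omega
    have h7 : N8 z % 8 = 1 := by
      unfold N8
      omega
    rcases h1 with h | h
    · exact h
    · rw [h] at h7
      omega
  rw [hzN]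
  exact (Nat.modEq_iff_dvd.mp hpd.symm)

theorem RCH (hRSQ : RSQ_stmt) (hTHU : THU_stmt) : RCH_stmt := by
  intro d hd hsq ψ hψ h2
  have hd0 : d ≠ 0 := hsq.ne_zero
  haveI : NeZero d := ⟨hd0⟩
  have heq := RCH_eq hRSQ d hd hsq ψ hψ h2
  have hex : ∀ a : (ZMod d)ˣ, ∃ z : ℤ × ℤ, ((N8 z : ℤ) : ZMod d) = (a : ZMod d) := by
    intro a
    obtain ⟨z, hz⟩ := RCH_ex hTHU d hd (a : ZMod d).val (ZMod.val_coe_unit_coprime a)
    refine ⟨z, ?_⟩
    have h1 : ((N8 z : ℤ) : ZMod d) = (((a : ZMod d).val : ℤ) : ZMod d) := by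
      rw [ZMod.intCast_eq_intCast_iff_dvd_sub]
      rw [← dvd_neg, neg_sub]
      exact hz
    rw [h1, Int.cast_natCast, ZMod.natCast_zmod_val]
  choose Z hZ using hex
  have hcop : ∀ a, Nat.Coprime (nn (Z a)) d := by
    intro a
    rw [RCH_nn_cop]
    have h1 : IsUnit ((N8 (Z a) : ℤ) : ZMod d) := by
      rw [hZ a]
      exact a.isUnit
    rw [ZMod.coe_int_isUnit_iff_isCoprime] at h1
    exact h1.symm
  have hval : ∀ (z : ℤ × ℤ) (a : (ZMod d)ˣ), Nat.Coprime (nn z) d →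
      ((N8 z : ℤ) : ZMod d) = (a : ZMod d) → ψ z = ψ (Z a) := by
    intro z a hz hza
    apply heq z (Z a) hz
    have h1 : ((N8 (Z a) : ℤ) : ZMod d) = ((N8 z : ℤ) : ZMod d) := (hZ a).trans hza.symm
    rw [ZMod.intCast_eq_intCast_iff_dvd_sub] at h1
    exact h1
  have hne : ∀ a, ψ (Z a) ≠ 0 := by
    intro a e
    have h1 := hψ.2.2.2.1 (Z a) (hcop a)
    rw [e, norm_zero] at h1
    exact zero_ne_one h1
  have hmul : ∀ a b : (ZMod d)ˣ, Units.mk0 (ψ (Z (a * b))) (hne (a * b)) =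
      Units.mk0 (ψ (Z a)) (hne a) * Units.mk0 (ψ (Z b)) (hne b) := by
    intro a b
    apply Units.ext
    rw [Units.val_mul, Units.val_mk0, Units.val_mk0, Units.val_mk0, ← hψ.1]
    symm
    apply hval
    · rw [RCH_nn_cop, RCH_N8_mul]
      exact IsCoprime.mul_left ((RCH_nn_cop _ _).mp (hcop a)) ((RCH_nn_cop _ _).mp (hcop b))
    · rw [RCH_N8_mul, Int.cast_mul, hZ, hZ, Units.val_mul]
  refine ⟨MulChar.ofUnitHom (MonoidHom.mk' (fun a => Units.mk0 (ψ (Z a)) (hne a)) hmul), ?_⟩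
  intro z hz
  have h1 : IsUnit ((N8 z : ℤ) : ZMod d) := by
    rw [ZMod.coe_int_isUnit_iff_isCoprime]
    exact ((RCH_nn_cop _ _).mp hz).symm
  obtain ⟨a, ha⟩ := h1
  rw [← ha, MulChar.ofUnitHom_coe]
  exact hval z a hz ha.symm

end Pool.Agent.HK
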